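import Pool.Agent.Helper4.TK.StD

/-!
# Project TK, module Tri: triangular system of symbols modulo 5

Model: `Pool/Agent/Helper6/TH/M_Tri.lean`.
-/

set_option autoImplicit false

namespace Pool.Agent.Helper36.TK

open Pool.Agent.Helper4.TK
open Pool.Agent.Helper14.W5
open Pool.Agent.Helper14.CV (Homog EqC act Tl)
open Pool.Agent.Helper28.WK (Tw evw)

section comm

variable {E : Type} [Ring E] [Algebra (ZMod 5) E]

private theorem sq_Tri (D Y : E) (h : D * Y = Y * D) :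
    (D ^ 2 + Y ^ 2) ^ 2 = D ^ 4 + (2 : ZMod 5) • (D ^ 2 * Y ^ 2) + Y ^ 4 := by
  have hDY : Commute D Y := h
  have h1 : Y ^ 2 * D ^ 2 = D ^ 2 * Y ^ 2 := (hDY.symm.pow_pow 2 2).eq
  rw [pow_two (D ^ 2 + Y ^ 2), add_mul, mul_add, mul_add, h1, two_smul, ← pow_add, ← pow_add]
  norm_num
  abel

private theorem cc_Tri (D Y : E) (h : D * Y = Y * D) :
    Commute (D * Y) (D ^ 4 + (2 : ZMod 5) • (D ^ 2 * Y ^ 2) + Y ^ 4) := by
  have hDY : Commute D Y := h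
  have hDC : Commute D (D ^ 4 + (2 : ZMod 5) • (D ^ 2 * Y ^ 2) + Y ^ 4) :=
    (((Commute.refl D).pow_right 4).add_right
      ((((Commute.refl D).pow_right 2).mul_right (hDY.pow_right 2)).smul_right _)).add_right (hDY.pow_right 4)
  have hYC : Commute Y (D ^ 4 + (2 : ZMod 5) • (D ^ 2 * Y ^ 2) + Y ^ 4) :=
    ((hDY.symm.pow_right 4).add_right
      (((hDY.symm.pow_right 2).mul_right ((Commute.refl Y).pow_right 2)).smul_right _)).add_right
        ((Commute.refl Y).pow_right 4)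
  exact hDC.mul_left hYC

private theorem reorder_Tri (A D Y : E) (h : D * Y = Y * D) (i j : ℕ) :
    A * (D * Y) ^ i * (D * Y * (D ^ 4 + (2 : ZMod 5) • (D ^ 2 * Y ^ 2) + Y ^ 4)) ^ j =
      A * (D ^ 4 + (2 : ZMod 5) • (D ^ 2 * Y ^ 2) + Y ^ 4) ^ j * (D ^ (i + j) * Y ^ (i + j)) := by
  have hDY : Commute D Y := h
  have hPC := cc_Tri D Y h
  generalize D ^ 4 + (2 : ZMod 5) • (D ^ 2 * Y ^ 2) + Y ^ 4 = C at hPC ⊢
  rw [hPC.mul_pow]
  have h2 : (D * Y) ^ (i + j) * C ^ j = C ^ j * (D * Y) ^ (i + j) := (hPC.pow_pow _ _).eq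
  calc A * (D * Y) ^ i * ((D * Y) ^ j * C ^ j)
      = A * ((D * Y) ^ (i + j) * C ^ j) := by
        rw [pow_add]
        simp only [mul_assoc]
    _ = A * C ^ j * (D ^ (i + j) * Y ^ (i + j)) := by
        rw [h2, hDY.mul_pow]
        simp only [mul_assoc]

private theorem shift_Tri (A D Y : E) (h : D * Y = Y * D) (j m : ℕ) :
    A * (D * Y) * (D ^ 4 + (2 : ZMod 5) • (D ^ 2 * Y ^ 2) + Y ^ 4) ^ j * (D ^ m * Y ^ m) =
      A * (D ^ 4 + (2 : ZMod 5) • (D ^ 2 * Y ^ 2) + Y ^ 4) ^ j * (D ^ (m + 1) * Y ^ (m + 1)) := by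
  have hDY : Commute D Y := h
  have hPC := cc_Tri D Y h
  generalize D ^ 4 + (2 : ZMod 5) • (D ^ 2 * Y ^ 2) + Y ^ 4 = C at hPC ⊢
  have h2 : (D * Y) * C ^ j = C ^ j * (D * Y) := (hPC.pow_right _).eq
  rw [← hDY.mul_pow, ← hDY.mul_pow, pow_succ', mul_assoc A, h2]
  simp only [mul_assoc]

private theorem mc_Tri (D Y : E) (h : D * Y = Y * D) :
    D ^ 3 * Y + (4 : ZMod 5) • (D * Y ^ 3) + (4 : ZMod 5) • (D ^ 2 * Y ^ 2) =
      (D ^ 2 + (4 : ZMod 5) • Y ^ 2 + (4 : ZMod 5) • (D * Y)) * (D * Y) := by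
  have hDY : Commute D Y := h
  have h1 : D ^ 3 * Y = D ^ 2 * (D * Y) := by
    rw [pow_succ, mul_assoc]
  have h2 : D * Y ^ 3 = Y ^ 2 * (D * Y) := by
    rw [pow_succ, ← mul_assoc, ← mul_assoc, (hDY.pow_right 2).eq]
  have h3 : D ^ 2 * Y ^ 2 = (D * Y) * (D * Y) := by
    rw [← hDY.mul_pow, pow_two]
  rw [h1, h2, h3, add_mul, add_mul, smul_mul_assoc, smul_mul_assoc]

end comm

section main

variable {r s : ℕ}

private theorem dy_pow_Tri (hBb : S5Bb) (p q m : ℕ) (hp : p < 5 ^ r) (hq : m + q < 5 ^ s) :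
    (dY ^ m : Module.End (ZMod 5) (Fn5 (5 ^ r) (5 ^ s))) (bb5 p (m + q)) = bb5 p q := by
  induction m with
  | zero =>
    rw [pow_zero, zero_add]
    rfl
  | succ m ih =>
    have h1 : m + 1 + q = (m + q) + 1 := by ring
    rw [pow_succ, Module.End.mul_apply, h1,
      (hBb r s).2.2.1 p (m + q) hp (by omega)]
    exact ih (by omega)

private theorem dx_pow_Tri (hBb : S5Bb) (p q m : ℕ) (hq : q < 5 ^ s) (hp : m + p < 5 ^ r) :
    (dX ^ m : Module.End (ZMod 5) (Fn5 (5 ^ r) (5 ^ s))) (bb5 (m + p) q) = bb5 p q := by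
  induction m with
  | zero =>
    rw [pow_zero, zero_add]
    rfl
  | succ m ih =>
    have h1 : m + 1 + p = (m + p) + 1 := by ring
    rw [pow_succ, Module.End.mul_apply, h1,
      (hBb r s).2.1 (m + p) q (by omega) hq]
    exact ih (by omega)

private theorem dy_kill_Tri (hBb : S5Bb) (p q m : ℕ) (hp : p < 5 ^ r) (hq : q < 5 ^ s)
    (h : q < m) :
    (dY ^ m : Module.End (ZMod 5) (Fn5 (5 ^ r) (5 ^ s))) (bb5 p q) = 0 := by
  obtain ⟨c, rfl⟩ : ∃ c, m = c + (1 + q) := ⟨m - (1 + q), by omega⟩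
  rw [pow_add, pow_add, Module.End.mul_apply, Module.End.mul_apply]
  have h1 := dy_pow_Tri (r := r) (s := s) hBb p 0 q hp (by omega)
  rw [add_zero] at h1
  rw [h1, pow_one, (hBb r s).2.2.2.2.1 p hp, map_zero]

private theorem dx_kill_Tri (hBb : S5Bb) (p q m : ℕ) (hp : p < 5 ^ r) (hq : q < 5 ^ s)
    (h : p < m) :
    (dX ^ m : Module.End (ZMod 5) (Fn5 (5 ^ r) (5 ^ s))) (bb5 p q) = 0 := by
  obtain ⟨c, rfl⟩ : ∃ c, m = c + (1 + p) := ⟨m - (1 + p), by omega⟩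
  rw [pow_add, pow_add, Module.End.mul_apply, Module.End.mul_apply]
  have h1 := dx_pow_Tri (r := r) (s := s) hBb 0 q p hq (by omega)
  rw [add_zero] at h1
  rw [h1, pow_one, (hBb r s).2.2.2.1 q hq, map_zero]

/-- One step of a factor `dX^4 + dX^2 dY^2 + dY^4`. -/
private theorem c_step_Tri (hBb : S5Bb) (p : ℕ) (hp : 4 + p < 5 ^ r) (hs : 0 < 5 ^ s) :
    (dX ^ 4 + (2 : ZMod 5) • (dX ^ 2 * dY ^ 2) + dY ^ 4 : Module.End (ZMod 5) (Fn5 (5 ^ r) (5 ^ s)))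
      (bb5 (4 + p) 0) = bb5 p 0 := by
  rw [LinearMap.add_apply, LinearMap.add_apply, LinearMap.smul_apply, Module.End.mul_apply, dx_pow_Tri hBb p 0 4 hs hp,
    dy_kill_Tri hBb (4 + p) 0 4 hp hs (by norm_num), dy_kill_Tri hBb (4 + p) 0 2 hp hs (by norm_num),
    map_zero, smul_zero, add_zero, add_zero]

private theorem c_pow_Tri (hBb : S5Bb) (p m : ℕ) (hp : 4 * m + p < 5 ^ r) (hs : 0 < 5 ^ s) :
    ((dX ^ 4 + (2 : ZMod 5) • (dX ^ 2 * dY ^ 2) + dY ^ 4) ^ m : Module.End (ZMod 5) (Fn5 (5 ^ r) (5 ^ s)))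
      (bb5 (4 * m + p) 0) = bb5 p 0 := by
  induction m with
  | zero =>
    rw [pow_zero, mul_zero, zero_add]
    rfl
  | succ m ih =>
    have h1 : 4 * (m + 1) + p = 4 + (4 * m + p) := by ring
    have h2 : 4 + (4 * m + p) < 5 ^ r := by rw [← h1]; exact hp
    rw [pow_succ, Module.End.mul_apply, h1, c_step_Tri hBb (4 * m + p) h2 hs]
    exact ih (by omega)

/-- The span of the `bb5 a b` with `a + 3b ≡ 2` modulo 4. -/
private def So_Tri (r s : ℕ) : Submodule (ZMod 5) (Fn5 (5 ^ r) (5 ^ s)) :=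
  Submodule.span (ZMod 5) {F | ∃ a b : ℕ, a < 5 ^ r ∧ b < 5 ^ s ∧ (a + 3 * b) % 4 = 2 ∧ F = bb5 a b}

private theorem so_mem_Tri (a b : ℕ) (ha : a < 5 ^ r) (hb : b < 5 ^ s) (h : (a + 3 * b) % 4 = 2) :
    (bb5 a b : Fn5 (5 ^ r) (5 ^ s)) ∈ So_Tri r s :=
  Submodule.subset_span ⟨a, b, ha, hb, h, rfl⟩

private theorem so_val_Tri (F : Fn5 (5 ^ r) (5 ^ s)) (h : F ∈ So_Tri r s) : F 0 0 = 0 := by
  refine Submodule.span_induction (p := fun F _ => F 0 0 = 0) ?_ ?_ ?_ ?_ h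
  · rintro F ⟨a, b, -, -, hb, rfl⟩
    rcases Nat.eq_zero_or_pos a with rfl | ha
    · obtain ⟨b, rfl⟩ : ∃ b', b = b' + 1 := ⟨b - 1, by omega⟩
      simp [bb5]
    · obtain ⟨a, rfl⟩ : ∃ a', a = a' + 1 := ⟨a - 1, by omega⟩
      simp [bb5]
  · rfl
  · intro F G _ _ hF hG
    rw [Pi.add_apply, Pi.add_apply, hF, hG, add_zero]
  · intro c F _ hF
    rw [Pi.smul_apply, Pi.smul_apply, hF, smul_zero]

private theorem so_mon_Tri (hBb : S5Bb) (k l : ℕ) (hkl : (k + 3 * l) % 4 = 0) (F : Fn5 (5 ^ r) (5 ^ s))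
    (h : F ∈ So_Tri r s) :
    (dX ^ k : Module.End (ZMod 5) (Fn5 (5 ^ r) (5 ^ s))) ((dY ^ l : Module.End (ZMod 5) (Fn5 (5 ^ r) (5 ^ s))) F) ∈ So_Tri r s := by
  refine Submodule.span_induction
    (p := fun F _ => (dX ^ k : Module.End (ZMod 5) (Fn5 (5 ^ r) (5 ^ s)))
      ((dY ^ l : Module.End (ZMod 5) (Fn5 (5 ^ r) (5 ^ s))) F) ∈ So_Tri r s) ?_ ?_ ?_ ?_ h
  · rintro F ⟨a, b, ha, hb, hodd, rfl⟩
    rcases lt_or_ge b l with hbl | hbl
    · rw [dy_kill_Tri hBb a b l ha hb hbl, map_zero]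
      exact Submodule.zero_mem _
    · obtain ⟨q, rfl⟩ : ∃ q, b = l + q := ⟨b - l, by omega⟩
      rw [dy_pow_Tri hBb a q l ha hb]
      rcases lt_or_ge a k with hak | hak
      · rw [dx_kill_Tri hBb a q k ha (by omega) hak]
        exact Submodule.zero_mem _
      · obtain ⟨p, rfl⟩ : ∃ p, a = k + p := ⟨a - k, by omega⟩
        rw [dx_pow_Tri hBb p q k (by omega) ha]
        exact so_mem_Tri p q (by omega) (by omega) (by omega)
  · rw [map_zero, map_zero]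
    exact Submodule.zero_mem _
  · intro F G _ _ hF hG
    rw [map_add, map_add]
    exact Submodule.add_mem _ hF hG
  · intro c F _ hF
    rw [map_smul, map_smul]
    exact Submodule.smul_mem _ _ hF

private theorem so_c_Tri (hBb : S5Bb) (m : ℕ) (F : Fn5 (5 ^ r) (5 ^ s)) (h : F ∈ So_Tri r s) :
    ((dX ^ 4 + (2 : ZMod 5) • (dX ^ 2 * dY ^ 2) + dY ^ 4) ^ m : Module.End (ZMod 5) (Fn5 (5 ^ r) (5 ^ s))) F ∈
      So_Tri r s := by
  induction m generalizing F with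
  | zero =>
    rw [pow_zero]
    exact h
  | succ m ih =>
    rw [pow_succ, Module.End.mul_apply]
    refine ih _ ?_
    rw [LinearMap.add_apply, LinearMap.add_apply, LinearMap.smul_apply, Module.End.mul_apply]
    have h1 := so_mon_Tri hBb 4 0 (by norm_num) F h
    have h2 := so_mon_Tri hBb 2 2 (by norm_num) F h
    have h3 := so_mon_Tri hBb 0 4 (by norm_num) F h
    rw [pow_zero] at h1 h3
    exact Submodule.add_mem _ (Submodule.add_mem _ h1 (Submodule.smul_mem _ _ h2)) h3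

private theorem low_pow_Tri (hLow0 : S5Low0) (O : Module.End (ZMod 5) (Fn5 (5 ^ r) (5 ^ s)))
    (k : ℤ) (h : Lw O k) (i : ℕ) : Lw (O ^ i) ((i : ℤ) * k) := by
  induction i with
  | zero =>
    rw [pow_zero, Nat.cast_zero, zero_mul]
    exact (hLow0 r s).2.2.2.2.2.1
  | succ i ih =>
    have h1 : ((i + 1 : ℕ) : ℤ) * k = (i : ℤ) * k + k := by
      push_cast
      ring
    rw [pow_succ, h1]
    exact (hLow0 r s).1 _ _ _ _ ih h

/-- monomials -/
private theorem low_mon_Tri (hLow0 : S5Low0) (k l : ℕ) (d : ℤ) (hd : (k : ℤ) + l = d) :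
    Lw (dX ^ k * dY ^ l : Module.End (ZMod 5) (Fn5 (5 ^ r) (5 ^ s))) d := by
  have h1 := low_pow_Tri hLow0 _ _ (hLow0 r s).2.2.2.2.2.2.1 k
  have h2 := low_pow_Tri hLow0 _ _ (hLow0 r s).2.2.2.2.2.2.2.1 l
  rw [mul_one] at h1 h2
  rw [← hd]
  exact (hLow0 r s).1 _ _ _ _ h1 h2

private theorem low_dx_Tri (hLow0 : S5Low0) (k : ℕ) :
    Lw (dX ^ k : Module.End (ZMod 5) (Fn5 (5 ^ r) (5 ^ s))) (k : ℤ) := by
  have h1 := low_mon_Tri (r := r) (s := s) hLow0 k 0 k (by simp)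
  rwa [pow_zero, mul_one] at h1

private theorem low_dy_Tri (hLow0 : S5Low0) (k : ℕ) :
    Lw (dY ^ k : Module.End (ZMod 5) (Fn5 (5 ^ r) (5 ^ s))) (k : ℤ) := by
  have h1 := low_mon_Tri (r := r) (s := s) hLow0 0 k k (by simp)
  rwa [pow_zero, one_mul] at h1

private theorem low_P_Tri (hLow0 : S5Low0) :
    Lw (dX * dY : Module.End (ZMod 5) (Fn5 (5 ^ r) (5 ^ s))) 2 := by
  have h := low_mon_Tri (r := r) (s := s) hLow0 1 1 2 (by norm_num)
  rwa [pow_one, pow_one] at h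

private theorem lo_Tri (hLow0 : S5Low0) : (LoK : Module.End (ZMod 5) (Fn5 (5 ^ r) (5 ^ s))) =
    dX * dY * (dX ^ 4 + (2 : ZMod 5) • (dX ^ 2 * dY ^ 2) + dY ^ 4) := by
  have hc := (hLow0 r s).2.2.2.2.2.2.2.2.1
  rw [← sq_Tri _ _ hc]
  rfl

private theorem low_Lo_Tri (hLow0 : S5Low0) :
    Lw (LoK : Module.End (ZMod 5) (Fn5 (5 ^ r) (5 ^ s))) 6 := by
  have h1 : Lw (dX ^ 4 + (2 : ZMod 5) • (dX ^ 2 * dY ^ 2) + dY ^ 4 : Module.End (ZMod 5) (Fn5 (5 ^ r) (5 ^ s))) 4 :=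
    (hLow0 r s).2.1 _ _ _ ((hLow0 r s).2.1 _ _ _ (low_dx_Tri hLow0 4)
      ((hLow0 r s).2.2.1 _ _ _ (low_mon_Tri hLow0 2 2 4 (by norm_num)))) (low_dy_Tri hLow0 4)
  have h2 := (hLow0 r s).1 _ _ _ _ (low_P_Tri hLow0) h1
  have h3 : (2 : ℤ) + 4 = 6 := by norm_num
  rw [h3] at h2
  rw [lo_Tri hLow0]
  exact h2

private theorem low_Mc0_Tri (hLow0 : S5Low0) :
    Lw (Mc0 : Module.End (ZMod 5) (Fn5 (5 ^ r) (5 ^ s))) 2 :=
  (hLow0 r s).2.2.1 _ _ _ ((hLow0 r s).2.1 _ _ _ (low_dx_Tri hLow0 2) (low_P_Tri hLow0))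

private theorem low_Mc1_Tri (hLow0 : S5Low0) :
    Lw (Mc1 : Module.End (ZMod 5) (Fn5 (5 ^ r) (5 ^ s))) 2 :=
  (hLow0 r s).2.1 _ _ _ (low_dx_Tri hLow0 2) (low_dy_Tri hLow0 2)

private theorem low_Mc2_Tri (hLow0 : S5Low0) :
    Lw (Mc2 : Module.End (ZMod 5) (Fn5 (5 ^ r) (5 ^ s))) 2 :=
  (hLow0 r s).2.2.1 _ _ _ (low_P_Tri hLow0)

private theorem low_Md0_Tri (hLow0 : S5Low0) :
    Lw (Md0 : Module.End (ZMod 5) (Fn5 (5 ^ r) (5 ^ s))) 4 := by
  have h1 : Lw (dX ^ 3 * dY : Module.End (ZMod 5) (Fn5 (5 ^ r) (5 ^ s))) 4 := by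
    have h := low_mon_Tri (r := r) (s := s) hLow0 3 1 4 (by norm_num)
    rwa [pow_one] at h
  have h2 : Lw (dX * dY ^ 3 : Module.End (ZMod 5) (Fn5 (5 ^ r) (5 ^ s))) 4 := by
    have h := low_mon_Tri (r := r) (s := s) hLow0 1 3 4 (by norm_num)
    rwa [pow_one] at h
  exact (hLow0 r s).2.1 _ _ _ ((hLow0 r s).2.1 _ _ _ h1
    ((hLow0 r s).2.2.1 _ _ _ h2)) ((hLow0 r s).2.2.1 _ _ _ (low_mon_Tri hLow0 2 2 4 (by norm_num)))

private theorem low_Md2_Tri (hLow0 : S5Low0) :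
    Lw (Md2 : Module.End (ZMod 5) (Fn5 (5 ^ r) (5 ^ s))) 4 :=
  (hLow0 r s).2.2.1 _ _ _ (low_mon_Tri hLow0 2 2 4 (by norm_num))

private theorem low_all_Tri (hLow0 : S5Low0) (O : Module.End (ZMod 5) (Fn5 (5 ^ r) (5 ^ s))) (k : ℤ)
    (hO : Lw O k) (i j : ℕ) :
    Lw (O * QoK ^ i * LoK ^ j : Module.End (ZMod 5) (Fn5 (5 ^ r) (5 ^ s)))
      (k + (i : ℤ) * 2 + (j : ℤ) * 6) :=
  (hLow0 r s).1 _ _ _ _ ((hLow0 r s).1 _ _ _ _ hO
    (low_pow_Tri hLow0 _ _ (low_P_Tri hLow0) i)) (low_pow_Tri hLow0 _ _ (low_Lo_Tri hLow0) j)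

private theorem form_Tri (hLow0 : S5Low0) (A : Module.End (ZMod 5) (Fn5 (5 ^ r) (5 ^ s))) (i j : ℕ) :
    (A * QoK ^ i * LoK ^ j : Module.End (ZMod 5) (Fn5 (5 ^ r) (5 ^ s))) =
      A * (dX ^ 4 + (2 : ZMod 5) • (dX ^ 2 * dY ^ 2) + dY ^ 4) ^ j * (dX ^ (i + j) * dY ^ (i + j)) := by
  rw [lo_Tri hLow0]
  exact reorder_Tri _ _ _ (hLow0 r s).2.2.2.2.2.2.2.2.1 i j

/-- The factor of `Md0`. -/
private noncomputable def A1_Tri (r s : ℕ) : Module.End (ZMod 5) (Fn5 (5 ^ r) (5 ^ s)) :=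
  dX ^ 2 + (4 : ZMod 5) • dY ^ 2 + (4 : ZMod 5) • (dX * dY)

private theorem formc_Tri (hLow0 : S5Low0) (i j : ℕ) :
    (Md0 * QoK ^ i * LoK ^ j : Module.End (ZMod 5) (Fn5 (5 ^ r) (5 ^ s))) =
      A1_Tri r s * (dX ^ 4 + (2 : ZMod 5) • (dX ^ 2 * dY ^ 2) + dY ^ 4) ^ j *
        (dX ^ (i + j + 1) * dY ^ (i + j + 1)) := by
  have hc := (hLow0 r s).2.2.2.2.2.2.2.2.1
  have h1 : (Md0 : Module.End (ZMod 5) (Fn5 (5 ^ r) (5 ^ s))) = A1_Tri r s * (dX * dY) :=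
    mc_Tri _ _ hc
  rw [form_Tri hLow0, h1, shift_Tri _ _ _ hc]

private theorem kill_Tri (hBb : S5Bb) (A : Module.End (ZMod 5) (Fn5 (5 ^ r) (5 ^ s)))
    (m al be : ℕ) (hal : al < 5 ^ r) (hbe : be < 5 ^ s) (h : be < m) :
    (A * (dX ^ m * dY ^ m) : Module.End (ZMod 5) (Fn5 (5 ^ r) (5 ^ s))) (bb5 al be) = 0 := by
  rw [Module.End.mul_apply, Module.End.mul_apply, dy_kill_Tri hBb al be m hal hbe h, map_zero,
    map_zero]

private theorem zero4_Tri (hBb : S5Bb) (j m al be : ℕ) (hal : al < 5 ^ r) (hbe : be < 5 ^ s)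
    (h : (al + 3 * be) % 4 = 2) :
    (((dX ^ 4 + (2 : ZMod 5) • (dX ^ 2 * dY ^ 2) + dY ^ 4) ^ j * (dX ^ m * dY ^ m) :
      Module.End (ZMod 5) (Fn5 (5 ^ r) (5 ^ s))) (bb5 al be)) 0 0 = 0 := by
  rw [Module.End.mul_apply, Module.End.mul_apply]
  exact so_val_Tri _ (so_c_Tri hBb j _ (so_mon_Tri hBb m m (by omega) _ (so_mem_Tri al be hal hbe h)))

private theorem val_Tri (hBb : S5Bb) (A : Module.End (ZMod 5) (Fn5 (5 ^ r) (5 ^ s))) (j m e : ℕ)
    (hal : m + (4 * j + e) < 5 ^ r) (hbe : m < 5 ^ s) :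
    (A * (dX ^ 4 + (2 : ZMod 5) • (dX ^ 2 * dY ^ 2) + dY ^ 4) ^ j * (dX ^ m * dY ^ m) :
      Module.End (ZMod 5) (Fn5 (5 ^ r) (5 ^ s))) (bb5 (m + (4 * j + e)) m) = A (bb5 e 0) := by
  have hs0 : 0 < 5 ^ s := by positivity
  have h1 := dy_pow_Tri (r := r) (s := s) hBb (m + (4 * j + e)) 0 m hal (by omega)
  rw [add_zero] at h1
  rw [Module.End.mul_apply, Module.End.mul_apply, Module.End.mul_apply, h1,
    dx_pow_Tri hBb (4 * j + e) 0 m hs0 hal, c_pow_Tri hBb e j (by omega) hs0]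

/-- The value at the origin only depends on the leading form. -/
private theorem lead_Tri (hLow0 : S5Low0) (O : Module.End (ZMod 5) (Fn5 (5 ^ r) (5 ^ s)))
    (k : ℤ) (hO : Lw O k) (F L : Fn5 (5 ^ r) (5 ^ s)) (h : F - L ∈ Wd5 (k - 1)) :
    O F = O L := by
  have h1 := hO _ _ h
  have h2 : k - 1 - k = -1 := by ring
  rw [h2] at h1
  have h3 := (hLow0 r s).2.2.2.2.2.2.2.2.2.2.2.2.2 _ h1
  rw [map_sub] at h3
  exact sub_eq_zero.1 h3

/-- The symbol with leading forms `u bb`, `v bb`, `z bb`. -/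
private theorem core_Tri (hl : S5Low0) (hb : S5Bb) (hd : TLed) (hx : TEx) (hi : TItr)
    (al be : ℕ) (u v z : ZMod 5) (hr : al < 5 ^ r) (hs : be < 5 ^ s) (hev : Even (al + be))
    (huv : (al + 3 * be) % 4 = 2 → z = 0) :
    ∃ G : ℤ → ℤ → ZMod 5, SymK 5 r (s + 1) G ∧
      (∀ i j : ℕ, al + be < 2 * i + 6 * j → evK (5 ^ r) G 2 i j = 0 ∧ evK (5 ^ r) G 3 i j = 0) ∧
      (∀ i j : ℕ, 2 * i + 6 * j = al + be → evK (5 ^ r) G 2 i j =
        u * ((1 * QoK ^ i * LoK ^ j : Module.End (ZMod 5) (Fn5 (5 ^ r) (5 ^ s))) (bb5 al be)) 0 0 ∧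
        evK (5 ^ r) G 3 i j =
        -(z * ((1 * QoK ^ i * LoK ^ j : Module.End (ZMod 5) (Fn5 (5 ^ r) (5 ^ s))) (bb5 al be)) 0 0)) ∧
      (∀ i j : ℕ, al + be < 2 * i + 6 * j + 2 → evK (5 ^ r) G 0 i j = 0) ∧
      (∀ i j : ℕ, 2 * i + 6 * j + 2 = al + be → evK (5 ^ r) G 0 i j =
        u * ((Mc0 * QoK ^ i * LoK ^ j : Module.End (ZMod 5) (Fn5 (5 ^ r) (5 ^ s))) (bb5 al be)) 0 0 +
        v * ((Mc1 * QoK ^ i * LoK ^ j : Module.End (ZMod 5) (Fn5 (5 ^ r) (5 ^ s))) (bb5 al be)) 0 0 +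
        z * ((Mc2 * QoK ^ i * LoK ^ j : Module.End (ZMod 5) (Fn5 (5 ^ r) (5 ^ s))) (bb5 al be)) 0 0) ∧
      (∀ i j : ℕ, al + be < 2 * i + 6 * j + 4 → evK (5 ^ r) G 1 i j = 0) ∧
      (∀ i j : ℕ, 2 * i + 6 * j + 4 = al + be → evK (5 ^ r) G 1 i j =
        u * ((Md0 * QoK ^ i * LoK ^ j : Module.End (ZMod 5) (Fn5 (5 ^ r) (5 ^ s))) (bb5 al be)) 0 0 +
        z * ((Md2 * QoK ^ i * LoK ^ j : Module.End (ZMod 5) (Fn5 (5 ^ r) (5 ^ s))) (bb5 al be)) 0 0) := by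
  obtain ⟨F, hRel, hF0, hF1, hF2⟩ := hd r s al be u v z hr hs hev huv
  obtain ⟨G, hG, hGF⟩ := hx (ZMod 5) inferInstance r s F hRel
  have hdd : (al : ℤ) + (be : ℤ) = ((al + be : ℕ) : ℤ) := by push_cast; ring
  rw [hdd] at hF0 hF1 hF2
  have hbb := (hb r s).1 _ _ hr hs
  rw [hdd] at hbb
  have hmem : ∀ (f : Fn5 (5 ^ r) (5 ^ s)) (w : ZMod 5), f - w • bb5 al be ∈ Wd5 (((al + be : ℕ) : ℤ) - 1) →
      f ∈ Wd5 ((al + be : ℕ) : ℤ) := by
    intro f w hf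
    have h1 : f = (f - w • bb5 al be) + w • bb5 al be := by rw [sub_add_cancel]
    rw [h1]
    exact Submodule.add_mem _ ((hl r s).2.2.2.2.1 _ _ (by omega) hf) (Submodule.smul_mem _ _ hbb)
  have hI := hi r s G (al + be) hG
    (by
      intro f
      rw [hGF f]
      fin_cases f
      · exact hmem _ _ hF0
      · exact hmem _ _ hF1
      · exact hmem _ _ hF2)
  have hval : ∀ (O : Module.End (ZMod 5) (Fn5 (5 ^ r) (5 ^ s))) (k i j : ℕ), Lw O k →
      2 * i + 6 * j + k = al + be → ∀ (f : Fn5 (5 ^ r) (5 ^ s)) (w : ZMod 5),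
      f - w • bb5 al be ∈ Wd5 (((al + be : ℕ) : ℤ) - 1) →
      ((O * QoK ^ i * LoK ^ j : Module.End (ZMod 5) (Fn5 (5 ^ r) (5 ^ s))) f) 0 0 =
        w * ((O * QoK ^ i * LoK ^ j : Module.End (ZMod 5) (Fn5 (5 ^ r) (5 ^ s))) (bb5 al be)) 0 0 := by
    intro O k i j hO hk f w hf
    have h1 := low_all_Tri (r := r) (s := s) hl O k hO i j
    have h2 : ((k : ℤ) + (i : ℤ) * 2 + (j : ℤ) * 6) = ((al + be : ℕ) : ℤ) := by
      rw [← hk]
      push_cast
      ring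
    rw [h2] at h1
    rw [lead_Tri hl _ _ h1 _ _ hf, map_smul, Pi.smul_apply, Pi.smul_apply, smul_eq_mul]
  have l1 : Lw (1 : Module.End (ZMod 5) (Fn5 (5 ^ r) (5 ^ s))) ((0 : ℕ) : ℤ) := by
    rw [Nat.cast_zero]; exact (hl r s).2.2.2.2.2.1
  have l2 := low_Mc0_Tri (r := r) (s := s) hl
  have l3 := low_Mc1_Tri (r := r) (s := s) hl
  have l4 := low_Mc2_Tri (r := r) (s := s) hl
  have l5 := low_Md0_Tri (r := r) (s := s) hl
  have l6 := low_Md2_Tri (r := r) (s := s) hl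
  refine ⟨G, hG, ?_, ?_, ?_, ?_, ?_, ?_⟩
  · intro i j h
    exact (hI i j).1 h
  · intro i j h
    obtain ⟨e1, e2⟩ := (hI i j).2.1 h
    rw [e1, e2, hGF 0, hGF 2, ← hval 1 0 i j l1 (by omega) _ _ hF0,
      ← hval 1 0 i j l1 (by omega) _ _ hF2, one_mul]
    exact ⟨rfl, rfl⟩
  · intro i j h
    exact (hI i j).2.2.1 h
  · intro i j h
    rw [(hI i j).2.2.2.1 h, hGF 0, hGF 1, hGF 2, hval Mc0 2 i j l2 h _ _ hF0,
      hval Mc1 2 i j l3 h _ _ hF1, hval Mc2 2 i j l4 h _ _ hF2]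
  · intro i j h
    exact (hI i j).2.2.2.2.1 h
  · intro i j h
    rw [(hI i j).2.2.2.2.2 h, hGF 0, hGF 2, hval Md0 4 i j l5 h _ _ hF0,
      hval Md2 4 i j l6 h _ _ hF2]

end main

private theorem bb00_Tri (r s : ℕ) : ((bb5 0 0 : Fn5 (5 ^ r) (5 ^ s)) 0 0) = 1 := by simp [bb5]

/-- TRI. -/
theorem hTri (hl : S5Low0) (hb : S5Bb) (hd : TLed) (hx : TEx) (hi : TItr) : TTri := by
  intro r s c i j hc hr hs
  have hs0 : 0 < 5 ^ s := by positivity
  have hone : (1 : ZMod 5) ≠ 0 := by decide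
  have hc4 : c = 0 ∨ c = 1 ∨ c = 2 ∨ c = 3 := by omega
  rcases hc4 with rfl | rfl | rfl | rfl
  · -- `c = 0`
    have e1 : aK 0 = 2 := rfl
    have e2 : bK 0 = 0 := rfl
    rw [e1] at hr
    rw [e2] at hs
    obtain ⟨G, hG, hg2, he2, hg0, he0, hg1, he1⟩ := core_Tri (r := r) (s := s) hl hb hd hx hi
      (2 + i + 5 * j) (0 + i + j) 0 1 0 hr hs ⟨1 + i + 3 * j, by ring⟩ (fun _ => rfl)
    refine ⟨G, hG, ?_, ?_⟩
    · rw [he0 i j (by ring), zero_mul, zero_mul, zero_add, add_zero, one_mul, form_Tri hl]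
      have e : 2 + i + 5 * j = (i + j) + (4 * j + 2) := by ring
      have e' : 0 + i + j = i + j := by ring
      rw [e, e', val_Tri hb _ j (i + j) 2 (by omega) (by omega)]
      have e2 : (Mc1 : Module.End (ZMod 5) (Fn5 (5 ^ r) (5 ^ s))) (bb5 2 0) = bb5 0 0 := by
        have h5 := dx_pow_Tri (r := r) (s := s) hb 0 0 2 hs0 (by omega)
        have h6 := dy_kill_Tri (r := r) (s := s) hb 2 0 2 (by omega) hs0 (by norm_num)
        rw [add_zero] at h5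
        rw [Mc1, LinearMap.add_apply, h5, h6, add_zero]
      rw [e2, bb00_Tri]
      exact hone
    · intro c' i' j' hc' hne
      have hc4 : c' = 0 ∨ c' = 1 ∨ c' = 2 ∨ c' = 3 := by omega
      rcases hc4 with rfl | rfl | rfl | rfl
      · show (2 + 0 + 2 * i' + 6 * j' < 2 + 0 + 2 * i + 6 * j ∨ (2 + 0 + 2 * i' + 6 * j' = 2 + 0 + 2 * i + 6 * j ∧ _))
        rcases lt_trichotomy (2 + 2 * i' + 6 * j') (2 + 2 * i + 6 * j) with h | h | h
        · left; omega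
        · right
          refine ⟨by omega, Or.inr ⟨rfl, ?_⟩⟩
          by_contra hcon
          apply hne
          rw [he0 i' j' (by omega), zero_mul, zero_mul, zero_add, add_zero, one_mul, form_Tri hl,
            kill_Tri hb _ _ _ _ hr hs (by omega)]
          rfl
        · exact absurd (hg0 i' j' (by omega)) hne
      · show (3 + 1 + 2 * i' + 6 * j' < 2 + 0 + 2 * i + 6 * j ∨ (3 + 1 + 2 * i' + 6 * j' = 2 + 0 + 2 * i + 6 * j ∧ _))
        rcases lt_trichotomy (4 + 2 * i' + 6 * j') (2 + 2 * i + 6 * j) with h | h | h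
        · left; omega
        · exact absurd (by rw [he1 i' j' (by omega), zero_mul, zero_mul, add_zero]) hne
        · exact absurd (hg1 i' j' (by omega)) hne
      · show (0 + 0 + 2 * i' + 6 * j' < 2 + 0 + 2 * i + 6 * j ∨ (0 + 0 + 2 * i' + 6 * j' = 2 + 0 + 2 * i + 6 * j ∧ _))
        rcases lt_trichotomy (2 * i' + 6 * j') (2 + 2 * i + 6 * j) with h | h | h
        · left; omega
        · exact absurd (by rw [(he2 i' j' (by omega)).1, zero_mul]) hne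
        · exact absurd (hg2 i' j' (by omega)).1 hne
      · show (0 + 0 + 2 * i' + 6 * j' < 2 + 0 + 2 * i + 6 * j ∨ (0 + 0 + 2 * i' + 6 * j' = 2 + 0 + 2 * i + 6 * j ∧ _))
        rcases lt_trichotomy (2 * i' + 6 * j') (2 + 2 * i + 6 * j) with h | h | h
        · left; omega
        · exact absurd (by rw [(he2 i' j' (by omega)).2, zero_mul, neg_zero]) hne
        · exact absurd (hg2 i' j' (by omega)).2 hne
  · -- `c = 1`
    have e1 : aK 1 = 3 := rfl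
    have e2 : bK 1 = 1 := rfl
    rw [e1] at hr
    rw [e2] at hs
    obtain ⟨G, hG, hg2, he2, hg0, he0, hg1, he1⟩ := core_Tri (r := r) (s := s) hl hb hd hx hi
      (3 + i + 5 * j) (1 + i + j) 1 0 0 hr hs ⟨2 + i + 3 * j, by ring⟩ (fun _ => rfl)
    refine ⟨G, hG, ?_, ?_⟩
    · rw [he1 i j (by ring), zero_mul, add_zero, one_mul, formc_Tri hl]
      have e : 3 + i + 5 * j = (i + j + 1) + (4 * j + 2) := by ring
      have e' : 1 + i + j = i + j + 1 := by ring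
      rw [e, e', val_Tri hb _ j (i + j + 1) 2 (by omega) (by omega)]
      have e2 : (A1_Tri r s) (bb5 2 0) = bb5 0 0 := by
        have h5 := dx_pow_Tri (r := r) (s := s) hb 0 0 2 hs0 (by omega)
        have h6 := dy_kill_Tri (r := r) (s := s) hb 2 0 2 (by omega) hs0 (by norm_num)
        have h7 := dy_kill_Tri (r := r) (s := s) hb 2 0 1 (by omega) hs0 (by norm_num)
        rw [add_zero] at h5
        rw [pow_one] at h7
        rw [A1_Tri, LinearMap.add_apply, LinearMap.add_apply, LinearMap.smul_apply,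
          LinearMap.smul_apply, Module.End.mul_apply, h5, h6, h7, map_zero,
          smul_zero, add_zero, add_zero]
      rw [e2, bb00_Tri]
      exact hone
    · intro c' i' j' hc' hne
      have hc4 : c' = 0 ∨ c' = 1 ∨ c' = 2 ∨ c' = 3 := by omega
      rcases hc4 with rfl | rfl | rfl | rfl
      · show (2 + 0 + 2 * i' + 6 * j' < 3 + 1 + 2 * i + 6 * j ∨ (2 + 0 + 2 * i' + 6 * j' = 3 + 1 + 2 * i + 6 * j ∧ _))
        rcases lt_trichotomy (2 + 2 * i' + 6 * j') (4 + 2 * i + 6 * j) with h | h | h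
        · left; omega
        · right
          exact ⟨by omega, Or.inl (by norm_num)⟩
        · exact absurd (hg0 i' j' (by omega)) hne
      · show (3 + 1 + 2 * i' + 6 * j' < 3 + 1 + 2 * i + 6 * j ∨ (3 + 1 + 2 * i' + 6 * j' = 3 + 1 + 2 * i + 6 * j ∧ _))
        rcases lt_trichotomy (4 + 2 * i' + 6 * j') (4 + 2 * i + 6 * j) with h | h | h
        · left; omega
        · right
          refine ⟨by omega, Or.inr ⟨rfl, ?_⟩⟩
          by_contra hcon
          apply hne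
          rw [he1 i' j' (by omega), zero_mul, add_zero, one_mul, formc_Tri hl,
            kill_Tri hb _ _ _ _ hr hs (by omega)]
          rfl
        · exact absurd (hg1 i' j' (by omega)) hne
      · show (0 + 0 + 2 * i' + 6 * j' < 3 + 1 + 2 * i + 6 * j ∨ (0 + 0 + 2 * i' + 6 * j' = 3 + 1 + 2 * i + 6 * j ∧ _))
        rcases lt_trichotomy (2 * i' + 6 * j') (4 + 2 * i + 6 * j) with h | h | h
        · left; omega
        · refine absurd ?_ hne
          rw [(he2 i' j' (by omega)).1, one_mul, form_Tri hl, one_mul,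
            zero4_Tri hb _ _ _ _ hr hs (by omega)]
        · exact absurd (hg2 i' j' (by omega)).1 hne
      · show (0 + 0 + 2 * i' + 6 * j' < 3 + 1 + 2 * i + 6 * j ∨ (0 + 0 + 2 * i' + 6 * j' = 3 + 1 + 2 * i + 6 * j ∧ _))
        rcases lt_trichotomy (2 * i' + 6 * j') (4 + 2 * i + 6 * j) with h | h | h
        · left; omega
        · exact absurd (by rw [(he2 i' j' (by omega)).2, zero_mul, neg_zero]) hne
        · exact absurd (hg2 i' j' (by omega)).2 hne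
  · -- `c = 2`
    have e1 : aK 2 = 0 := rfl
    have e2 : bK 2 = 0 := rfl
    rw [e1] at hr
    rw [e2] at hs
    obtain ⟨G, hG, hg2, he2, hg0, he0, hg1, he1⟩ := core_Tri (r := r) (s := s) hl hb hd hx hi
      (0 + i + 5 * j) (0 + i + j) 1 0 0 hr hs ⟨i + 3 * j, by ring⟩ (fun _ => rfl)
    refine ⟨G, hG, ?_, ?_⟩
    · rw [(he2 i j (by ring)).1, one_mul, form_Tri hl]
      have e : 0 + i + 5 * j = (i + j) + (4 * j + 0) := by ring
      have e' : 0 + i + j = i + j := by ring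
      rw [e, e', val_Tri hb _ j (i + j) 0 (by omega) (by omega), Module.End.one_apply, bb00_Tri]
      exact hone
    · intro c' i' j' hc' hne
      have hc4 : c' = 0 ∨ c' = 1 ∨ c' = 2 ∨ c' = 3 := by omega
      rcases hc4 with rfl | rfl | rfl | rfl
      · show (2 + 0 + 2 * i' + 6 * j' < 0 + 0 + 2 * i + 6 * j ∨ (2 + 0 + 2 * i' + 6 * j' = 0 + 0 + 2 * i + 6 * j ∧ _))
        rcases lt_trichotomy (2 + 2 * i' + 6 * j') (2 * i + 6 * j) with h | h | h
        · left; omega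
        · right
          exact ⟨by omega, Or.inl (by norm_num)⟩
        · exact absurd (hg0 i' j' (by omega)) hne
      · show (3 + 1 + 2 * i' + 6 * j' < 0 + 0 + 2 * i + 6 * j ∨ (3 + 1 + 2 * i' + 6 * j' = 0 + 0 + 2 * i + 6 * j ∧ _))
        rcases lt_trichotomy (4 + 2 * i' + 6 * j') (2 * i + 6 * j) with h | h | h
        · left; omega
        · right
          exact ⟨by omega, Or.inl (by norm_num)⟩
        · exact absurd (hg1 i' j' (by omega)) hne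
      · show (0 + 0 + 2 * i' + 6 * j' < 0 + 0 + 2 * i + 6 * j ∨ (0 + 0 + 2 * i' + 6 * j' = 0 + 0 + 2 * i + 6 * j ∧ _))
        rcases lt_trichotomy (2 * i' + 6 * j') (2 * i + 6 * j) with h | h | h
        · left; omega
        · right
          refine ⟨by omega, Or.inr ⟨rfl, ?_⟩⟩
          by_contra hcon
          apply hne
          rw [(he2 i' j' (by omega)).1, one_mul, form_Tri hl,
            kill_Tri hb _ _ _ _ hr hs (by omega)]
          rfl
        · exact absurd (hg2 i' j' (by omega)).1 hne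
      · show (0 + 0 + 2 * i' + 6 * j' < 0 + 0 + 2 * i + 6 * j ∨ (0 + 0 + 2 * i' + 6 * j' = 0 + 0 + 2 * i + 6 * j ∧ _))
        rcases lt_trichotomy (2 * i' + 6 * j') (2 * i + 6 * j) with h | h | h
        · left; omega
        · exact absurd (by rw [(he2 i' j' (by omega)).2, zero_mul, neg_zero]) hne
        · exact absurd (hg2 i' j' (by omega)).2 hne
  · -- `c = 3`
    have e1 : aK 3 = 0 := rfl
    have e2 : bK 3 = 0 := rfl
    rw [e1] at hr
    rw [e2] at hs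
    obtain ⟨G, hG, hg2, he2, hg0, he0, hg1, he1⟩ := core_Tri (r := r) (s := s) hl hb hd hx hi
      (0 + i + 5 * j) (0 + i + j) 0 0 1 hr hs ⟨i + 3 * j, by ring⟩ (by intro h; omega)
    refine ⟨G, hG, ?_, ?_⟩
    · rw [(he2 i j (by ring)).2, one_mul, form_Tri hl]
      have e : 0 + i + 5 * j = (i + j) + (4 * j + 0) := by ring
      have e' : 0 + i + j = i + j := by ring
      rw [e, e', val_Tri hb _ j (i + j) 0 (by omega) (by omega), Module.End.one_apply, bb00_Tri]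
      decide
    · intro c' i' j' hc' hne
      have hc4 : c' = 0 ∨ c' = 1 ∨ c' = 2 ∨ c' = 3 := by omega
      rcases hc4 with rfl | rfl | rfl | rfl
      · show (2 + 0 + 2 * i' + 6 * j' < 0 + 0 + 2 * i + 6 * j ∨ (2 + 0 + 2 * i' + 6 * j' = 0 + 0 + 2 * i + 6 * j ∧ _))
        rcases lt_trichotomy (2 + 2 * i' + 6 * j') (2 * i + 6 * j) with h | h | h
        · left; omega
        · right
          exact ⟨by omega, Or.inl (by norm_num)⟩
        · exact absurd (hg0 i' j' (by omega)) hne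
      · show (3 + 1 + 2 * i' + 6 * j' < 0 + 0 + 2 * i + 6 * j ∨ (3 + 1 + 2 * i' + 6 * j' = 0 + 0 + 2 * i + 6 * j ∧ _))
        rcases lt_trichotomy (4 + 2 * i' + 6 * j') (2 * i + 6 * j) with h | h | h
        · left; omega
        · right
          exact ⟨by omega, Or.inl (by norm_num)⟩
        · exact absurd (hg1 i' j' (by omega)) hne
      · show (0 + 0 + 2 * i' + 6 * j' < 0 + 0 + 2 * i + 6 * j ∨ (0 + 0 + 2 * i' + 6 * j' = 0 + 0 + 2 * i + 6 * j ∧ _))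
        rcases lt_trichotomy (2 * i' + 6 * j') (2 * i + 6 * j) with h | h | h
        · left; omega
        · right
          exact ⟨by omega, Or.inl (by norm_num)⟩
        · exact absurd (hg2 i' j' (by omega)).1 hne
      · show (0 + 0 + 2 * i' + 6 * j' < 0 + 0 + 2 * i + 6 * j ∨ (0 + 0 + 2 * i' + 6 * j' = 0 + 0 + 2 * i + 6 * j ∧ _))
        rcases lt_trichotomy (2 * i' + 6 * j') (2 * i + 6 * j) with h | h | h
        · left; omega
        · right
          refine ⟨by omega, Or.inr ⟨rfl, ?_⟩⟩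
          by_contra hcon
          apply hne
          rw [(he2 i' j' (by omega)).2, one_mul, form_Tri hl,
            kill_Tri hb _ _ _ _ hr hs (by omega)]
          exact neg_zero
        · exact absurd (hg2 i' j' (by omega)).2 hne

end Pool.Agent.Helper36.TK
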